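import Mathlib
import Pool.Agent.Lib.MP_d9512b_co.LocF

set_option autoImplicit false

/-!
# Contractible subgraphs of every order in graphs with well connected neighbourhoods
-/

namespace Pool.Agent.Results.MP_d9512b_co.ConnectedNeighbourhoods

/-- `G` has more than `m` vertices and stays connected after deleting any set of fewer than `m`
vertices. -/
def MConnected {V : Type} [Fintype V] (G : SimpleGraph V) (m : ℕ) : Prop :=
  m < Fintype.card V ∧ ∀ X : Finset V, X.card < m → (G.induce ((↑X : Set V)ᶜ)).Connected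

/-- The vertices `z ≠ c` such that the neighbours of `z` other than `c` do not induce a connected
graph. -/
def Bad {V : Type} (G : SimpleGraph V) (c : V) : Set V :=
  {z | z ≠ c ∧ ¬ (G.induce (G.neighborSet z \ {c})).Connected}

/-- `S` induces a connected subgraph and the graph obtained by contracting `S` to one vertex
(represented by `s0 ∈ S`) is 3-connected. -/
def Contractible {V : Type} [DecidableEq V] (G : SimpleGraph V) (S : Finset V) : Prop :=
  ∃ s0 ∈ S, (G.induce (↑S : Set V)).Connected ∧
    (4 ≤ (insert s0 ((↑S : Set V)ᶜ)).ncard ∧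
      ∀ X : Finset V, X.card ≤ 2 →
        ((SimpleGraph.fromRel (fun x y : V => ∃ a b, G.Adj a b ∧
            (if a ∈ S then s0 else a) = x ∧ (if b ∈ S then s0 else b) = y)).induce
          (insert s0 ((↑S : Set V)ᶜ) \ (↑X : Set V))).Connected)

theorem contractible_of {V : Type} [DecidableEq V] {G : SimpleGraph V} {S : Finset V}
    (h : Pool.Agent.Lib.MP_d9512b_co.Loc.GoodSet G S) : Contractible G S := by
  obtain ⟨h1, ⟨s0, hs0⟩, h2⟩ := h
  obtain ⟨h3, h4⟩ := h2 s0 hs0
  exact ⟨s0, hs0, h1, h3, h4 (fun a => if a ∈ S then s0 else a) (fun a ha => if_pos ha)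
    (fun a ha => if_neg ha)⟩

/-- Let `1 ≤ n ≤ |V| - 3`.

If `G` is `m`-connected, `m ≥ 3`, and for every vertex `c` there are at most `m - 2` vertices
`z ≠ c` such that the neighbours of `z` other than `c` do not induce a connected graph, then `G`
has a 3-contractible subgraph of order `n`.

If `G` is 3-connected and `x y` is an edge such that for every other vertex `c` one of `x`, `y` is
not in `Bad c` and no set consisting of `c` and vertices of `Bad c` separates `G`, then `G` has a
3-contractible subgraph of order `n` which avoids `x` and `y`. -/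
theorem result (V : Type) [Fintype V] [DecidableEq V] (G : SimpleGraph V) (n : ℕ) (hn : 1 ≤ n)
    (hnV : n + 3 ≤ Fintype.card V) :
    (∀ m : ℕ, 3 ≤ m → MConnected G m → (∀ c, (Bad G c).ncard + 2 ≤ m) →
      ∃ S : Finset V, S.card = n ∧ Contractible G S) ∧
    (MConnected G 3 → ∀ x y : V, G.Adj x y →
      (∀ c, c ≠ x → c ≠ y → (x ∉ Bad G c ∨ y ∉ Bad G c) ∧
        ∀ X ⊆ Bad G c, (G.induce (insert c X)ᶜ).Connected) →
      ∃ S : Finset V, S.card = n ∧ x ∉ S ∧ y ∉ S ∧ Contractible G S) := by
  constructor
  · intro m hm hG hb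
    obtain ⟨S, hS, h⟩ := Pool.Agent.Lib.MP_d9512b_co.Loc.final_conn hm hG.1 hG.2 hb n hn hnV
    exact ⟨S, hS, contractible_of h⟩
  · intro hG x y hxy hb
    obtain ⟨S, hS, hx, hy, h⟩ := Pool.Agent.Lib.MP_d9512b_co.Loc.final_edge hG.2 hxy hb n hn hnV
    exact ⟨S, hS, hx, hy, contractible_of h⟩

end Pool.Agent.Results.MP_d9512b_co.ConnectedNeighbourhoods
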