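import Pool.Agent.Lib.MP_d9512b_co.CC.FarFinal

set_option autoImplicit false

namespace Pool.Agent.Results.MP_d9512b_co.FourConnected

open Pool.Agent.Lib.MP_d9512b_co

/-- For every `n ≥ 1` there is `N` such that every 4-connected finite graph with at least `N`
vertices has a set `S` of exactly `n` vertices which induces a connected subgraph and whose
contraction to a single vertex (the vertex `s0 ∈ S` stands for the new vertex) yields a
3-connected graph. -/
theorem result : ∀ n : ℕ, 1 ≤ n → ∃ N : ℕ, ∀ (V : Type) [Fintype V] [DecidableEq V]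
    (G : SimpleGraph V), N ≤ Fintype.card V →
    (5 ≤ Fintype.card V ∧
      ∀ X : Finset V, X.card ≤ 3 → (G.induce ((↑X : Set V)ᶜ)).Connected) →
    ∃ S : Finset V, ∃ s0 ∈ S, S.card = n ∧ (G.induce (↑S : Set V)).Connected ∧
      (4 ≤ (insert s0 ((↑S : Set V)ᶜ)).ncard ∧
        ∀ X : Finset V, X.card ≤ 2 →
          ((SimpleGraph.fromRel (fun x y : V => ∃ a b, G.Adj a b ∧
              (if a ∈ S then s0 else a) = x ∧ (if b ∈ S then s0 else b) = y)).induce
            (insert s0 ((↑S : Set V)ᶜ) \ (↑X : Set V))).Connected) :=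
  four_connected_of stFar4

end Pool.Agent.Results.MP_d9512b_co.FourConnected
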