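import Pool.Agent.Lib.MP_d9512b_co.LG.Edge

set_option autoImplicit false

/-!
# Contractible subgraphs of every order in line graphs
-/

namespace Pool.Agent.Results.MP_d9512b_co.LineGraphs

open Pool.Agent.Lib.MP_d9512b_co

/-- For every `n ≥ 1` there is `N` such that every 3-connected finite graph `G` with at least `N`
vertices which is the line graph of a loopless multigraph without vertices of degree exactly two
(the vertices of `G` are the edges of the multigraph, `e x` is the pair of ends of the edge `x`,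
and two edges are adjacent if they share an end) has a set `S` of exactly `n` vertices which
induces a connected subgraph and whose contraction to a single vertex (the vertex `s0 ∈ S` stands
for the new vertex) yields a 3-connected graph. -/
theorem result : ∀ n : ℕ, 1 ≤ n → ∃ N : ℕ, ∀ (V U : Type) [Fintype V] [DecidableEq V] [Finite U]
    (G : SimpleGraph V) (e : V → Sym2 U),
    N ≤ Fintype.card V →
    (∀ x, ¬ (e x).IsDiag) →
    (∀ x y, G.Adj x y ↔ x ≠ y ∧ ∃ u, u ∈ e x ∧ u ∈ e y) →
    (∀ u, {x | u ∈ e x}.ncard ≠ 2) →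
    (4 ≤ Fintype.card V ∧
      ∀ X : Finset V, X.card ≤ 2 → (G.induce ((↑X : Set V)ᶜ)).Connected) →
    ∃ S : Finset V, ∃ s0 ∈ S, S.card = n ∧ (G.induce (↑S : Set V)).Connected ∧
      (4 ≤ (insert s0 ((↑S : Set V)ᶜ)).ncard ∧
        ∀ X : Finset V, X.card ≤ 2 →
          ((SimpleGraph.fromRel (fun x y : V => ∃ a b, G.Adj a b ∧
              (if a ∈ S then s0 else a) = x ∧ (if b ∈ S then s0 else b) = y)).induce
            (insert s0 ((↑S : Set V)ᶜ) \ (↑X : Set V))).Connected) := by
  intro n hn
  obtain ⟨N, hN⟩ := LG63.line_graphs n hn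
  refine ⟨N, fun V U _ _ _ G e hc h1 h2 h3 h4 => ?_⟩
  obtain ⟨S, hS, s0, hs0, h5⟩ := hN V U G e hc (LG63.cn3_of h4) ⟨h1, h2, h3⟩
  exact ⟨S, s0, hs0, hS, h5⟩

end Pool.Agent.Results.MP_d9512b_co.LineGraphs
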