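import Pool.Agent.Lib.MP_d9512b_co.T3.Loc
import Pool.Agent.Lib.MP_d9512b_co.T3.Fin
import Pool.Agent.Lib.MP_d9512b_co.T3.Second

set_option autoImplicit false

namespace Pool.Agent.Results.MP_d9512b_co.RegularBall

open Pool.Agent.Lib.MP_d9512b_co

/-- For every `n ≥ 1` there are `N` and `r` such that every 3-connected finite graph with at
least `N` vertices which has a vertex `u` such that all vertices at distance at most `r` of `u`
have the same degree as `u` has a set `S` of exactly `n` vertices which induces a connected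
subgraph and whose contraction to a single vertex (the vertex `s0 ∈ S` stands for the new vertex)
yields a 3-connected graph. -/
theorem result : ∀ n : ℕ, 1 ≤ n → ∃ N r : ℕ,
    ∀ (V : Type) [Fintype V] [DecidableEq V] (G : SimpleGraph V) [DecidableRel G.Adj],
    N ≤ Fintype.card V →
    (4 ≤ Fintype.card V ∧
      ∀ X : Finset V, X.card ≤ 2 → (G.induce ((↑X : Set V)ᶜ)).Connected) →
    (∃ u : V, ∀ x : V, G.dist u x ≤ r → G.degree x = G.degree u) →
    ∃ S : Finset V, ∃ s0 ∈ S, S.card = n ∧ (G.induce (↑S : Set V)).Connected ∧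
      (4 ≤ (insert s0 ((↑S : Set V)ᶜ)).ncard ∧
        ∀ X : Finset V, X.card ≤ 2 →
          ((SimpleGraph.fromRel (fun x y : V => ∃ a b, G.Adj a b ∧
              (if a ∈ S then s0 else a) = x ∧ (if b ∈ S then s0 else b) = y)).induce
            (insert s0 ((↑S : Set V)ᶜ) \ (↑X : Set V))).Connected) :=
  T3.regular_ball_of (T3.stLoc_of_second T3.stSecond)

end Pool.Agent.Results.MP_d9512b_co.RegularBall
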